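import Pool.Agent.H57.PnSq

set_option autoImplicit false

namespace Pool.Agent.Results.MP_181197_gt.UnderCH

theorem result (hCH : Cardinal.continuum.{0} = Cardinal.aleph 1) :
    ¬ (∀ (X : Type) [TopologicalSpace X] [T35Space X],
      (NormalSpace {f : X → ℝ // Continuous f} ∧
        ∀ s : Set {f : X → ℝ // Continuous f}, IsClosed s → IsGδ s) →
      (NormalSpace ({f : X → ℝ // Continuous f} × {f : X → ℝ // Continuous f}) ∧
        ∀ s : Set ({f : X → ℝ // Continuous f} × {f : X → ℝ // Continuous f}),
          IsClosed s → IsGδ s)) :=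
  Pool.Agent.H57.Pr.pnsq hCH

end Pool.Agent.Results.MP_181197_gt.UnderCH
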